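import Pool.Agent.N328.CD.Defs

/-!
# Project CD (helper328): `T`-joins in multigraphs
-/

set_option autoImplicit false

namespace Pool.Agent.N225.CD
open Finset Pool.Agent.H160R2.HF Pool.Agent.N328.LF Pool.Agent.N328.CD

section
variable {V E : Type} [Fintype V] [Fintype E] [DecidableEq V] [DecidableEq E]

theorem sum_symm (X Y : Finset V) (a : V → ZMod 2) :
    ∑ v ∈ symmDiff X Y, a v = ∑ v ∈ X, a v + ∑ v ∈ Y, a v := by
  have h : ∀ Z : Finset V, ∑ v ∈ Z, a v = ∑ v, if v ∈ Z then a v else 0 := by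
    intro Z
    rw [← Finset.sum_filter]
    congr 1
    ext
    simp
  rw [h, h X, h Y, ← Finset.sum_add_distrib]
  refine Finset.sum_congr rfl fun v _ => ?_
  by_cases h1 : v ∈ X <;> by_cases h2 : v ∈ Y <;>
    simp [Finset.mem_symmDiff, h1, h2, CharTwo.add_self_eq_zero]

/-- the boundary of an edge -/
def dl (G : OrGraph V E) (e : E) (v : V) : ZMod 2 :=
  (if G.t e = v then 1 else 0) + (if G.h e = v then 1 else 0)

theorem sum_dl (G : OrGraph V E) (e : E) (X : Finset V) :
    ∑ v ∈ X, dl G e v = if e ∈ G.cut X then 1 else 0 := by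
  unfold dl
  rw [Finset.sum_add_distrib, Finset.sum_ite_eq, Finset.sum_ite_eq]
  simp only [OrGraph.cut, mem_filter, mem_univ, true_and]
  by_cases h1 : G.t e ∈ X <;> by_cases h2 : G.h e ∈ X <;> simp [h1, h2, CharTwo.add_self_eq_zero]

theorem deg_ins (G : OrGraph V E) {K : Finset E} {e : E} (he : e ∉ K) (v : V) :
    ((G.deg (insert e K) v : ℕ) : ZMod 2) = (G.deg K v : ZMod 2) + dl G e v := by
  have h1 : e ∉ K.filter (fun e => G.t e = v) := fun h => he (mem_filter.1 h).1
  have h2 : e ∉ K.filter (fun e => G.h e = v) := fun h => he (mem_filter.1 h).1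
  unfold OrGraph.deg dl
  rw [filter_insert, filter_insert]
  split_ifs <;> (try rw [card_insert_of_notMem h1]) <;> (try rw [card_insert_of_notMem h2]) <;>
    push_cast <;> ring

theorem cut_symm (G : OrGraph V E) (X Y : Finset V) (e : E) :
    e ∈ G.cut (symmDiff X Y) ↔ ¬ (e ∈ G.cut X ↔ e ∈ G.cut Y) := by
  simp only [OrGraph.cut, mem_filter, mem_univ, true_and, Finset.mem_symmDiff]
  tauto

theorem tj0 (G : OrGraph V E) (D : Finset E) : ∀ a : V → ZMod 2,
    (∀ X : Finset V, G.cut X ∩ D = ∅ → ∑ v ∈ X, a v = 0) →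
    ∃ K ⊆ D, ∀ v, (G.deg K v : ZMod 2) = a v := by
  induction D using Finset.induction_on with
  | empty =>
    intro a h
    refine ⟨∅, le_rfl, fun v => ?_⟩
    have h1 := h {v} (by simp)
    rw [sum_singleton] at h1
    rw [h1]
    simp [OrGraph.deg]
  | insert e D he ih =>
    intro a h
    by_cases h' : ∀ X : Finset V, G.cut X ∩ D = ∅ → ∑ v ∈ X, a v = 0
    · obtain ⟨K, hK, hd⟩ := ih a h'
      exact ⟨K, hK.trans (subset_insert _ _), hd⟩
    · push Not at h'
      obtain ⟨X₀, hX₀, hs₀⟩ := h'
      have hs1 : ∑ v ∈ X₀, a v = 1 := by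
        generalize ∑ v ∈ X₀, a v = z at hs₀
        revert z
        decide
      have key : ∀ X : Finset V, G.cut X ∩ D = ∅ → e ∉ G.cut X → ∑ v ∈ X, a v = 0 := by
        intro X hX heX
        apply h
        rw [inter_insert_of_notMem heX, hX]
      have he₀ : e ∈ G.cut X₀ := by
        by_contra hcon
        exact hs₀ (key X₀ hX₀ hcon)
      obtain ⟨K, hK, hd⟩ := ih (fun v => a v + dl G e v) (by
        intro X hX
        rw [sum_add_distrib, sum_dl]
        by_cases heX : e ∈ G.cut X
        · rw [if_pos heX]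
          have h1 := key (symmDiff X X₀) (by
            rw [Finset.eq_empty_iff_forall_notMem] at hX hX₀ ⊢
            intro j hj
            rw [mem_inter, cut_symm] at hj
            have h2 := hX j
            have h3 := hX₀ j
            rw [mem_inter] at h2 h3
            tauto) (by
            rw [cut_symm]
            tauto)
          rw [sum_symm, hs1] at h1
          exact h1
        · rw [if_neg heX, key X hX heX, add_zero])
      have heK : e ∉ K := fun h => he (hK h)
      refine ⟨insert e K, insert_subset_insert _ hK, fun v => ?_⟩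
      rw [deg_ins G heK, hd, add_assoc, CharTwo.add_self_eq_zero, add_zero]

/-- CD/TJ -/
theorem tj (G : OrGraph V E) (D : Finset E) (T : Finset V)
    (h : ∀ X : Finset V, G.cut X ∩ D = ∅ → Even (X ∩ T).card) :
    ∃ K ⊆ D, ∀ v, (Odd (G.deg K v) ↔ v ∈ T) := by
  obtain ⟨K, hK, hd⟩ := tj0 G D (fun v => if v ∈ T then 1 else 0) (by
    intro X hX
    have h1 := h X hX
    rw [← ZMod.natCast_eq_zero_iff_even] at h1
    rw [Finset.sum_ite_mem, Finset.sum_const, nsmul_eq_mul, mul_one]
    exact h1)
  refine ⟨K, hK, fun v => ?_⟩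
  rw [← ZMod.natCast_ne_zero_iff_odd, hd]
  split_ifs with hv <;> simp [hv]

end

end Pool.Agent.N225.CD
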